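import Mathlib
import Pool.Agent.X271.MotBrL
import Pool.Agent.TH216.LR.Lr8

/-!
# The motivic monodromy conjecture at the origin for compositions with generic coefficients

Let `k ⊂ ℂ` be a field and let `f ∈ k[x_1, …, x_n]`, `f(0) = 0`, be such that, for some `κ ≥ 0`,
`f(x) + y_1 z_1 + ⋯ + y_κ z_κ` becomes, by an automorphism of the polynomial ring `k[x, y, z]` which fixes
the origin, a polynomial `F = ∑_j c_j X ^ (v j) + h` with generic coefficients `c_j` at given exponents
(for instance at the vertices of its Newton polyhedron) and arbitrary further terms `h`. Under a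
condition on the facets of this ONE Newton polyhedron we prove the motivic monodromy conjecture at the
origin for `f`, in its strong form: the local motivic zeta function `Z_{mot,0,f}(T)` of the problem lies in
the ring generated by `T` and finitely many `1 / (1 - 𝕃 ^ a T ^ b)` with `a / b` a root of the LOCAL
Bernstein-Sato polynomial `b_{f,0}` at the origin; by the theorem of Malgrange and Kashiwara
`exp(2 π i a / b)` is an eigenvalue of the monodromy of `f` at points of `{f = 0}` arbitrarily near to `0`.

Main case: the compositions `f(x) = Φ(x, p_1(x), …, p_κ(x))` with `p_i(0) = 0`, in which `Φ` (without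
linear terms `z_i`) and the `p_i` have generic coefficients at given exponents. Such `f` (for
instance all `x ^ u ∏ p_i ^ (e_i)`, sums of such products, and `p(x) ^ 2 + q(x) ^ 3`) are in general
degenerate with respect to their Newton polyhedra in all coordinates, not reduced, and their
singularities are not isolated. The theorems of this problem for nondegenerate polynomials do not apply
to them.

Method. The zeta function of `f` is an explicit combination of those of `F` and of `F + y z`. For `F`
the denominator of `(1 - 𝕃⁻¹ T) Z_F(T)` contains only the factors `1 - 𝕃 ^ (- |a|) T ^ (N_a)` of the facets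
`a` such that `-|a| / N_a` is a root of every functional equation of `F` over the ring of formal power series,
if the facets of its level are simplices or B1 in one direction. The normal fan of `F + y z` is
computed: its rays are `(a, N_a, 0)` and `(a, 0, N_a)`, its levels go up by one, and simplices and
B1-facets in one common direction are preserved. Non-B1 simplices become B1 in `F + y z`; their levels
are roots by the functional equation of `F` itself. The coefficient of `y z` is made generic by an
automorphism of the torus. Finally a functional equation of `f` over the formal power series ring in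
`x` with `b(s) = (s + 1) c(s)` gives those of `F` and `F + y z` over the formal power series rings in
`x, y, z` with `(s + 1) c(s + κ)`, `(s + 1) c(s + κ + 1)`, through the automorphism of the formal power
series ring.
-/

set_option autoImplicit false

namespace Pool.Agent.Results.MP_9321be_ag.GenericCompositionsLocal

open MvPolynomial Pool.Agent.W428.MOT Pool.Agent.X271.MD Pool.Agent.TH216.HD
open Pool.Agent.W749.NM (zetaN)
open Pool.Agent.W375.MG (zetaG Good)

/-- The strong form of the motivic monodromy conjecture for `f` at the origin, with the finite set `S`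
of pairs `(a, b)` of integers: `b > 0` and `a / b` is a root of every polynomial `b` with
`b(s) f ^ s = P(s) f ^ (s + 1)` for a differential operator `P(s)` with formal power series at the
origin as coefficients, polynomial in `s` (`IsLocalBFunction`), in particular of the local
Bernstein-Sato polynomial `b_{f,0}` (the monic one of least degree of these polynomials, for convergent
power series); and for every field `K ⊃ k` the local motivic zeta function
`zetaN f 0 = 𝕃 ^ (-n) ∑_{l ≥ 1} [𝒳_l] (𝕃 ^ (-n) T) ^ l` of the problem (`𝒳_l` the `l`-jets with origin `0`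
on which `f` has order `l`) is in the ring `ratRing K S` generated over
`K₀(Var_K)[𝕃⁻¹]` by `T` and the `1 / (1 - 𝕃 ^ a T ^ b)`, `(a, b) ∈ S`. The same holds for the zeta
functions `zetaG f W E` of the jets with origin in a constructible set `W` for which the leading
coefficient of `f` is in a constructible set `E` of nonzero numbers. -/
def StrongMC {k : Type} [Field k] [Algebra k ℂ] {n : ℕ} (f : MvPolynomial (Fin n) k)
    (S : Finset (ℤ × ℤ)) : Prop :=
  (∀ p ∈ S, 0 < p.2 ∧ ∀ b : Polynomial ℂ,
    Pool.Agent.H628R4.TP.IsLocalBFunction (map (algebraMap k ℂ) f) b →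
      b.eval ((p.1 : ℂ) / p.2) = 0) ∧
  ∀ (K : Type) [Field K] [Algebra k K],
    zetaN (map (algebraMap k K) f) 0 ∈ ratRing K S ∧
    ∀ (W : Set (Pt K (Fin n))) (E : Set (AlgebraicClosure K)), Constr W → Good E →
      zetaG (map (algebraMap k K) f) W E ∈ ratRing K S

/-- **The motivic monodromy conjecture at the origin, with roots of the local Bernstein-Sato
polynomial, for stably generic polynomials and for compositions with generic coefficients.**

`InPoly v w`: `w` is in the Newton polyhedron `conv {v j} + ℝ_{≥ 0} ^ N`. `IsRay v a`: `a` spans a ray of the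
normal fan of this polyhedron; `ordA v a = N_a = min_j ⟨a, v j⟩`; `lev v a = |a| / N_a`.

`HypCL v h`: for every ray `a` with `N_a > 0` one of the following holds:
* `|a| / N_a = |a'| / N_{a'}` for some `a' ∈ ℕ ^ N` with `N_{a'} > 0` and `NonB1 v True a'`: there is a set
  `J` of `#{i | a' i ≠ 0}` elements with `⟨a', v j⟩ = N_{a'}` for `j ∈ J` such that the vectors
  `(v j i)_{a' i ≠ 0}`, `j ∈ J`, are linearly independent, such that no variable `x_i` with
  `a' i ≠ 0` occurs in exactly one of the monomials `x ^ (v j)`, `j ∈ J`, and there with exponent `1`,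
  and such that (a condition only if some `a' i = 0`) for all `l` with `⟨a', v l⟩ = N_{a'}`, if `v l`
  agrees with `∑_{j ∈ J} c_j (v j)` in the coordinates `i` with `a' i ≠ 0`, then
  `∑_j c_j s(v j) ≤ s(v l)`, `s(w) = ∑_{a' i = 0} w_i`;
* `LocC v h σ`, `σ = |a| / N_a`: there is a variable `x_i` such that every ray `a'` with `N_{a'} > 0` and
  `|a'| / N_{a'} = σ` is a simplex (`Simp v h a'`: the vectors `(v j i)_{a' i ≠ 0}`, for the `j` with
  `⟨a', v j⟩ = N_{a'}`, are linearly independent, and the exponents of `h` in this face are in the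
  convex hull of the `v j`) or B1 in the direction `i` (`B1Dir v h i a'`: `a' i ≠ 0`, and exactly one of
  the monomials of `v` and `h` of minimal `a'`-weight is divisible by `x_i`; it is some `x ^ (v j0)` with
  `v j0 i = 1`).

First part (stably generic polynomials). Let the `v j ≠ 0` be different, let the exponents of `h` be
in the Newton polyhedron of the `v j`, and let `HypCL v h` hold. There is `g ≠ 0` such that for all
coefficients `c_j ∈ k` with `g(c) ≠ 0`: if `f ≠ 0`, `f(0) = 0`, and `φ` is an automorphism of `k[x, y, z]`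
which fixes the origin, with `φ(f + ∑_{i ≤ κ} y_i z_i) = ∑_j c_j X ^ (v j) + h`, and there is no facet with
`|a| = N_a > 0`, then `StrongMC f S` for a finite set `S`.

Second part (compositions). Let exponents `m_j` of monomials in `x_1, …, x_n, z_1, …, z_κ` be given,
`j = 1, …, r`, in groups `π j ∈ {0, …, κ}`, `κ ≥ 1`, different in each group, nonzero in the group
`0`, and polynomials `H_0, …, H_κ` over `k`, where the exponents of `H_i` are in the Newton polyhedron
of the `m_j` with `π j = i` or `π j = 0` (`InPolyG π m i`). For `a ∈ k ^ r` let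
`tup π m a H i = ∑_{π j = i} a_j X ^ (m_j) + H_i`. `exps π m` are the exponents `m_j`, `π j = 0`, and
`y_i m_j`, `π j = i`, of `Φ + ∑ y_i l_i`, and `sumH H = H_0 + ∑ y_i H_i`. If `HypCL (exps π m) (sumH H)` holds
then there is `g ≠ 0` such that for all `a ∈ k ^ r` with `g(a) ≠ 0`: let `Φ = tup π m a H 0` and
`tup π m a H i = c_i z_i - p_i(x)`, `c_i ≠ 0`, `p_i(0) = 0`, for `i = 1, …, κ`, and let the
coefficients of `z_1, …, z_κ` in `Φ` be zero; if `f(x) = Φ(x, p_1(x) / c_1, …, p_κ(x) / c_κ)` is not
zero, then `StrongMC f S` for a finite set `S` of pairs `(a, b)` with `a < 0 < b`. -/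
theorem result (k : Type) [Field k] [Algebra k ℂ] {n κ r : ℕ} (hr : 0 < r) :
    (∀ v : Fin r → Fin (n + (κ + κ)) → ℕ, Function.Injective v → (∀ j, v j ≠ 0) →
      ∀ h : MvPolynomial (Fin (n + (κ + κ))) k, (∀ w ∈ h.support, InPoly v w) → HypCL v h →
      ∃ g : MvPolynomial (Fin r) k, g ≠ 0 ∧ ∀ c : Fin r → k, eval c g ≠ 0 →
      ∀ f : MvPolynomial (Fin n) k, f ≠ 0 → constantCoeff f = 0 →
      ∀ φ : MvPolynomial (Fin (n + (κ + κ))) k ≃ₐ[k] MvPolynomial (Fin (n + (κ + κ))) k,
      (∀ i, constantCoeff (φ (X i)) = 0) →
      φ (stab f κ) = (∑ j, C (c j) * ∏ i, X i ^ v j i) + h →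
      (∀ a : Fin (n + (κ + κ)) → ℕ, IsRay v a → 0 < ordA v a → ∑ i, a i ≠ ordA v a) →
      ∃ S : Finset (ℤ × ℤ), StrongMC f S) ∧
    (0 < κ → ∀ (π : Fin r → Fin (κ + 1)) (m : Fin r → Fin (n + κ) → ℕ),
      (∀ j j', π j = π j' → m j = m j' → j = j') → (∀ j, π j = 0 → m j ≠ 0) →
      ∀ H : Fin (κ + 1) → MvPolynomial (Fin (n + κ)) k,
      (∀ i, ∀ w ∈ (H i).support, InPolyG π m i w) → HypCL (exps π m) (sumH H) →
      ∃ g : MvPolynomial (Fin r) k, g ≠ 0 ∧ ∀ a : Fin r → k, eval a g ≠ 0 →
      ∀ (c : Fin κ → k) (p : Fin κ → MvPolynomial (Fin n) k), (∀ i, c i ≠ 0) →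
      (∀ i, constantCoeff (p i) = 0) →
      (∀ i : Fin κ, tup π m a H i.succ = C (c i) * X (Fin.natAdd n i) -
        rename (Fin.castAdd κ) (p i)) →
      (∀ i : Fin κ, coeff (Finsupp.single (Fin.natAdd n i) 1) (tup π m a H 0) = 0) →
      ∀ f : MvPolynomial (Fin n) k,
      f = aeval (Fin.append X fun i => C (c i)⁻¹ * p i) (tup π m a H 0) → f ≠ 0 →
      ∃ S : Finset (ℤ × ℤ), (∀ p ∈ S, p.1 < 0) ∧ StrongMC f S) := by
  have key : ∀ (f : MvPolynomial (Fin n) k) (S : Finset (ℤ × ℤ)), (∀ p ∈ S, 0 < p.2 ∧
      ∀ b : Polynomial ℂ, Pool.Agent.H628R4.TP.IsLocalBFunction (map (algebraMap k ℂ) f) b →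
        b.eval ((p.1 : ℂ) / p.2) = 0) →
      (∀ (K : Type) [Field K] [Algebra k K] (W : Set (Pt K (Fin n)))
        (E : Set (AlgebraicClosure K)), Constr W → Good E →
        zetaG (map (algebraMap k K) f) W E ∈ ratRing K S) → StrongMC f S := by
    intro f S hS hz
    exact ⟨hS, fun K _ _ => ⟨Pool.Agent.TH216.LR.zetaN_mem0 _ _
      (hz K {0} {a | a ≠ 0} constr_zero Pool.Agent.W375.MG.good_units),
      fun W E hW hE => hz K W E hW hE⟩⟩
  refine ⟨fun v hv hv0 h hh hC => ?_, fun hκ π m hinj hm H hH hC => ?_⟩
  · obtain ⟨g, hg, hgc⟩ := stableL hr v hv hv0 h hh hC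
    refine ⟨g, hg, fun c hc f hf hf0 φ hφ0 hφ h1 => ?_⟩
    obtain ⟨S, hS, hz⟩ := hgc c hc f hf hf0 φ hφ0 hφ h1
    exact ⟨S, key f S hS hz⟩
  · obtain ⟨g, hg, hgc⟩ := compsL hr hκ π m hinj hm H hH hC
    refine ⟨g, hg, fun a ha c p hc hp0 hl hlin f hff hf => ?_⟩
    obtain ⟨S, hS, hz⟩ := hgc a ha c p hc hp0 hl hlin f hff hf
    exact ⟨S, fun p hp => (hS p hp).1, key f S (fun p hp => (hS p hp).2) hz⟩

end Pool.Agent.Results.MP_9321be_ag.GenericCompositionsLocal
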