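import Mathlib
import Pool.Agent.X271.NdThm
import Pool.Agent.TH216.LR.Lr8

/-!
# The motivic monodromy conjecture at the origin for nondegenerate compositions

Let `k ⊂ ℂ` be a field and let `f(x) = Φ(x, p_1(x) / c_1, …, p_κ(x) / c_κ)`, `f(0) = 0`, where `Φ(x, z)`
(without linear terms `z_i`) and `p_1(x), …, p_κ(x)`, `p_i(0) = 0`, are polynomials over `k` such that
`G = Φ(x, z) + ∑_i y_i (c_i z_i - p_i(x))` is nondegenerate with respect to its Newton polytope: for
every face of the polytope, the face polynomial and its derivatives have no common zero in the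
complex torus. No further genericity is assumed. Every candidate pole `-|a| / N_a` of the facets of the
Newton polyhedron of `G` is assumed to be an integer, or to agree modulo integers with the one of a
face which contains a simplex which is not of type `B1` (with the condition for the local version),
or all the facets with this candidate pole are simplices or `B1`-facets in one common direction.
Then the motivic monodromy conjecture at the origin holds for `f`: the local motivic zeta function
`Z_{mot,0,f}(T)` of the problem lies in the ring generated by `T` and finitely many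
`1 / (1 - 𝕃 ^ a T ^ b)` with `a < 0 < b` such that `a / b - i` is a root of the LOCAL Bernstein-Sato
polynomial of `f` at the origin for an integer `i`; by the theorem of Malgrange and Kashiwara
`exp(2 π i a / b)` is an eigenvalue of the monodromy of `f` at points of `{f = 0}` arbitrarily near to
the origin.

For `κ = 0` these are nondegenerate polynomials (starting results of this problem). For `κ > 0` they
are in general degenerate with respect to their Newton polyhedra, in all coordinates, not reduced
and with nonisolated singularities: products of powers `x ^ u ∏_i p_i ^ (e_i)` of the members of a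
nondegenerate system (`Φ` a monomial), sums of such products, `p ^ 2 + q ^ 3`, … Here the condition is
an explicit open condition on the coefficients, in contrast to the theorem
`GenericCompositionsLocal` of this problem, where the coefficients are generic, and not only the level
`|a| / N_a` itself, but its class modulo integers is used.

First part: the polynomial `f` need not be a composition, but `f + y_1 z_1 + ⋯ + y_κ z_κ` becomes by an
automorphism of the polynomial ring, which fixes the origin, a nondegenerate polynomial `G`; this
contains iterated compositions such as `((x_2 ^ 2 - x_1 ^ 3) ^ 2 - x_1 ^ 5 x_2) ^ 2 + …`.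

Method. If `G` is nondegenerate, so is `G + y z`. The normal fan of `G + y z` is computed: its rays are
`(a, N_a, 0)` and `(a, 0, N_a)`, its levels go up by one, and simplices and B1-facets in one common
direction are preserved. The zeta function of `f` is an explicit combination of those of `G` and
`G + y z`. A functional equation of `f` over the ring of formal power series in `x` with
`(s + 1) c(s)` gives those of `G` and `G + y z` over the formal power series rings in the further
variables with `(s + 1) c(s + κ)`, `(s + 1) c(s + κ + 1)`; these are deformed to very general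
coefficients (Kouchnirenko's theorem), and the algebraic relations obtained become multiplicative
identities of series, which show that the factors `1 - 𝕃 ^ (- |a|) T ^ (N_a)` cancel in
`(1 - 𝕃⁻¹ T) Z_G(T)` if no `-|a| / N_a - i` is a root.
-/

set_option autoImplicit false

namespace Pool.Agent.Results.MP_9321be_ag.NondegenerateCompositionsLocal

open MvPolynomial Pool.Agent.W428.MOT Pool.Agent.TH216.HD
open Pool.Agent.X271.MD (stab exps constr_zero)
open Pool.Agent.X271.ND (HypCV ComV grp)
open Pool.Agent.W749.NM (zetaN)
open Pool.Agent.W375.MG (zetaG Good)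

/-- The motivic monodromy conjecture for `f` at the origin, with the finite set `S` of pairs `(a, b)` of
integers: `a < 0 < b`, and for every polynomial `b` with `b(s) f ^ s = P(s) f ^ (s + 1)` for a
differential operator `P(s)` with formal power series at the origin as coefficients, polynomial in
`s` (`IsLocalBFunction`), in particular for the local Bernstein-Sato polynomial `b_{f,0}` (the monic one
of least degree of these polynomials, for convergent power series), the number `a / b - i` is a root
of `b` for some integer `i` (so that `exp(2 π i a / b)` is an eigenvalue of the monodromy of `f` near `0`,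
by Malgrange and Kashiwara); and for every field `K ⊃ k` the local motivic zeta function
`zetaN f 0 = 𝕃 ^ (-n) ∑_{l ≥ 1} [𝒳_l] (𝕃 ^ (-n) T) ^ l` of the problem (`𝒳_l` the `l`-jets with origin `0`
on which `f` has order `l`) is in the ring `ratRing K S` generated over
`K₀(Var_K)[𝕃⁻¹]` by `T` and the `1 / (1 - 𝕃 ^ a T ^ b)`, `(a, b) ∈ S`. The same holds for the zeta
functions `zetaG f W E` of the jets with origin in a constructible set `W` for which the leading
coefficient of `f` is in a constructible set `E` of nonzero numbers. -/
def WeakMCL {k : Type} [Field k] [Algebra k ℂ] {n : ℕ} (f : MvPolynomial (Fin n) k)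
    (S : Finset (ℤ × ℤ)) : Prop :=
  (∀ p ∈ S, p.1 < 0 ∧ 0 < p.2 ∧ ∀ b : Polynomial ℂ,
    Pool.Agent.H628R4.TP.IsLocalBFunction (map (algebraMap k ℂ) f) b →
      ∃ i : ℤ, b.eval ((p.1 : ℂ) / p.2 - i) = 0) ∧
  ∀ (K : Type) [Field K] [Algebra k K],
    zetaN (map (algebraMap k K) f) 0 ∈ ratRing K S ∧
    ∀ (W : Set (Pt K (Fin n))) (E : Set (AlgebraicClosure K)), Constr W → Good E →
      zetaG (map (algebraMap k K) f) W E ∈ ratRing K S

/-- **The motivic monodromy conjecture at the origin for stably nondegenerate polynomials and for
nondegenerate compositions.**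

`Nondegenerate v c` says that for every face of the convex hull of the `v j` (the face where the
linear form `w ∈ ℝ ^ N` is minimal) the face polynomial of `∑_j c_j X ^ (v j)` and its derivatives
`x_i ∂_i` have no common zero in `(ℂ \ 0) ^ N`. `V` is a set of exponents such that all the exponents are
in `conv {v j, j ∈ V} + ℝ_{≥ 0} ^ N` (`Spans v V`), for instance the set of the vertices of the Newton
polyhedron. `IsRay v a`: `a` spans a ray of the normal fan of this polyhedron;
`ordA v a = N_a = min_j ⟨a, v j⟩`; `lev v a = |a| / N_a`.

`HypCV True v V` says that for every ray `a` with `N_a > 0` one of the following holds: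
* `N_a` divides `|a|`;
* `|a| / N_a - |a'| / N_{a'} ∈ ℤ` for some `a' ∈ ℕ ^ N` with `N_{a'} > 0` and `NonB1 v True a'`: there is a
  set `J` of `#{i | a' i ≠ 0}` elements with `⟨a', v j⟩ = N_{a'}` for `j ∈ J` such that the vectors
  `(v j i)_{a' i ≠ 0}`, `j ∈ J`, are linearly independent, such that no variable `x_i` with
  `a' i ≠ 0` occurs in exactly one of the monomials `x ^ (v j)`, `j ∈ J`, and there with exponent `1`,
  and such that (a condition only if some `a' i = 0`) for all `l` with `⟨a', v l⟩ = N_{a'}`, if `v l`
  agrees with `∑_{j ∈ J} c_j (v j)` in the coordinates `i` with `a' i ≠ 0`, then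
  `∑_j c_j s(v j) ≤ s(v l)`, `s(w) = ∑_{a' i = 0} w_i`;
* `ComV v V σ` for `σ = |a| / N_a`: there is a variable `x_i` such that each ray `a'` with `N_{a'} > 0` and
  `|a'| / N_{a'} = σ` is a simplex (`SimpV v V a'`: the vectors `(v j i)_{a' i ≠ 0}`, for the `j ∈ V` with
  `⟨a', v j⟩ = N_{a'}`, are linearly independent, and all the `v j` with `⟨a', v j⟩ = N_{a'}` are in the
  convex hull of the `v k`, `k ∈ V`) or B1 in the direction `i` (`B1V v i a'`: `a' i ≠ 0`, and exactly one
  of the monomials `x ^ (v j)` with `⟨a', v j⟩ = N_{a'}` is divisible by `x_i`, and it is not divisible by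
  `x_i ^ 2`).

First part (stably nondegenerate polynomials). Let `G = ∑_j c_j X ^ (v j)`, `c_j ≠ 0`, with different
`v j ≠ 0` be nondegenerate with `HypCV True v V`, let `f ≠ 0`, `f(0) = 0`, and let `φ` be an automorphism
of `k[x, y, z]` which fixes the origin, with `φ(f + ∑_{i ≤ κ} y_i z_i) = G` (`stab f κ = f + ∑ y_i z_i`).
If `κ N_a < |a|` for all rays `a` with `N_a > 0`, then `WeakMCL f S` for a finite set `S`.

Second part (compositions). Let exponents `m_j` of monomials in `x_1, …, x_n, z_1, …, z_κ` be given,
`j = 1, …, r`, in groups `π j ∈ {0, …, κ}`, different in each group, nonzero in the group `0`, and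
coefficients `a_j ≠ 0`. Let `grp π m a i = ∑_{π j = i} a_j X ^ (m_j)`, `Φ = grp π m a 0`,
`grp π m a i = c_i z_i - p_i(x)`, `c_i ≠ 0`, `p_i(0) = 0`, for `i = 1, …, κ`, let the coefficients of
`z_1, …, z_κ` in `Φ` be zero, and let `f(x) = Φ(x, p_1(x) / c_1, …, p_κ(x) / c_κ) ≠ 0`. The exponents of
`G = Φ + ∑_i y_i (c_i z_i - p_i(x))` are `exps π m` (`m_j` for `π j = 0` and `y_i m_j` for `π j = i`). If `G` is
nondegenerate and `HypCV True (exps π m) V` holds, then `WeakMCL f S` for a finite set `S`. -/
theorem result (k : Type) [Field k] [Algebra k ℂ] {n κ r : ℕ} (hr : 0 < r)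
    (V : Finset (Fin r)) :
    (∀ (v : Fin r → Fin (n + (κ + κ)) → ℕ) (c : Fin r → k), Function.Injective v →
      (∀ j, v j ≠ 0) → (∀ j, c j ≠ 0) → Nondegenerate v (fun j => algebraMap k ℂ (c j)) →
      Spans v V → HypCV True v V →
      ∀ f : MvPolynomial (Fin n) k, f ≠ 0 → constantCoeff f = 0 →
      ∀ φ : MvPolynomial (Fin (n + (κ + κ))) k ≃ₐ[k] MvPolynomial (Fin (n + (κ + κ))) k,
      (∀ i, constantCoeff (φ (X i)) = 0) →
      φ (stab f κ) = ∑ j, C (c j) * ∏ i, X i ^ v j i →
      (∀ a : Fin (n + (κ + κ)) → ℕ, IsRay v a → 0 < ordA v a → κ * ordA v a < ∑ i, a i) →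
      ∃ S : Finset (ℤ × ℤ), WeakMCL f S) ∧
    (∀ (π : Fin r → Fin (κ + 1)) (m : Fin r → Fin (n + κ) → ℕ) (a : Fin r → k),
      (∀ j j', π j = π j' → m j = m j' → j = j') → (∀ j, π j = 0 → m j ≠ 0) →
      (∀ j, a j ≠ 0) → Nondegenerate (exps π m) (fun j => algebraMap k ℂ (a j)) →
      Spans (exps π m) V → HypCV True (exps π m) V →
      ∀ (c : Fin κ → k) (p : Fin κ → MvPolynomial (Fin n) k), (∀ i, c i ≠ 0) →
      (∀ i, constantCoeff (p i) = 0) →
      (∀ i : Fin κ, grp π m a i.succ = C (c i) * X (Fin.natAdd n i) -
        rename (Fin.castAdd κ) (p i)) →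
      (∀ i : Fin κ, coeff (Finsupp.single (Fin.natAdd n i) 1) (grp π m a 0) = 0) →
      ∀ f : MvPolynomial (Fin n) k,
      f = aeval (Fin.append X fun i => C (c i)⁻¹ * p i) (grp π m a 0) → f ≠ 0 →
      ∃ S : Finset (ℤ × ℤ), WeakMCL f S) := by
  have key : ∀ (f : MvPolynomial (Fin n) k) (S : Finset (ℤ × ℤ)), (∀ p ∈ S, p.1 < 0 ∧ 0 < p.2 ∧
      ∀ b : Polynomial ℂ, Pool.Agent.H628R4.TP.IsLocalBFunction (map (algebraMap k ℂ) f) b →
        ∃ i : ℤ, b.eval ((p.1 : ℂ) / p.2 - i) = 0) →
      (∀ (K : Type) [Field K] [Algebra k K] (W : Set (Pt K (Fin n)))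
        (E : Set (AlgebraicClosure K)), Constr W → Good E →
        zetaG (map (algebraMap k K) f) W E ∈ ratRing K S) → WeakMCL f S := by
    intro f S hS hz
    exact ⟨hS, fun K _ _ => ⟨Pool.Agent.TH216.LR.zetaN_mem0 _ _
      (hz K {0} {a | a ≠ 0} constr_zero Pool.Agent.W375.MG.good_units),
      fun W E hW hE => hz K W E hW hE⟩⟩
  refine ⟨fun v c hv hv0 hc hnd hV hC f hf hf0 φ hφ0 hφ hpos => ?_,
    fun π m a hinj hm ha hnd hV hC c p hc hp hl hlin f hff hf => ?_⟩
  · obtain ⟨S, hS, hz⟩ := Pool.Agent.X271.ND.stableL hr v hv hv0 c hc hnd V hV hC f hf hf0 φ hφ0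
      hφ hpos
    exact ⟨S, key f S hS hz⟩
  · obtain ⟨S, hS, hz⟩ := Pool.Agent.X271.ND.compL hr π m hinj hm a ha hnd V hV hC c p hc hp hl
      hlin f hff hf
    exact ⟨S, key f S hS hz⟩

end Pool.Agent.Results.MP_9321be_ag.NondegenerateCompositionsLocal
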