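import Mathlib
import Pool.Agent.X271.LocThm

/-!
# The motivic monodromy conjecture at the origin: reduction to cubics

We prove that the local motivic monodromy conjecture, in the strong form (with roots of the local
Bernstein-Sato polynomial) and with the refinement that the factor `1 - 𝕃⁻¹ T` of the smooth points is
separated, for all polynomials of all degrees in any number of variables, is EQUIVALENT to the same
statement for the cubic polynomials `x_0 + ∑_j t_j q_j(x)` with `q_j` of degree at most two, at their zeros.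
It implies the conjecture Q1 for the local motivic zeta functions at the origin (with the eigenvalues
of the monodromy at points arbitrarily near to the origin, by the theorem of Malgrange and Kashiwara).

Refined property of `f` at a zero `P`: `(1 - 𝕃⁻¹ T) Z_{mot,P,f}(T)` is in the ring generated by `T`
and finitely many `1 / (1 - 𝕃 ^ a T ^ b)` with `a / b` a root of `b_{f,P}(s) / (s + 1)`. So `-1`, if
`(1 - 𝕃⁻¹ T) Z_{mot,P,f}(T)` needs it, is a multiple root of `b_{f,P}`. The separation of the factor is
needed because `K₀(Var)[𝕃⁻¹]` is not a domain: a denominator cannot be moved by division.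

Method. Every polynomial `f` becomes such a cubic by adding products `y_i z_i` of new variables and
an automorphism of the polynomial ring (moves `F ↦ F + (y - a)(z + e)`); the zero `(P, 0)` goes to
a zero of the cubic. The jets of `f + y z` with origin in `(P, 0, 0)` are counted in the Grothendieck
ring: the local zeta function of `f` at `P` is an explicit combination of those of `f + y z` at
`(P, 0, 0)` and of `f + y z + y' z'` at `(P, 0, 0, 0, 0)`, without resolution of singularities and without
division; and a local functional equation of `f` at `P` with `b(s) = (s + 1) c(s)` gives one of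
`f + y z` at `(P, 0, 0)` with `(s + 1) c(s + 1)`.
-/

set_option autoImplicit false

namespace Pool.Agent.Results.MP_9321be_ag.ReductionToCubicsLocal

open MvPolynomial Pool.Agent.W428.MOT Pool.Agent.X271.RD
open Pool.Agent.W749.NM (zetaN)

/-- The strong form of the motivic monodromy conjecture for `f` at the point `P ∈ k ^ n`: there is a
finite set `S` of pairs `(a, b)` of integers such that `b > 0` and `a / b` is a root of every polynomial
`b` with `b(s) f ^ s = P(s) f ^ (s + 1)` for a differential operator `P(s)` with formal power series at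
the point `P` as coefficients, polynomial in `s` (`IsLocalBFunction`, applied to `f(x + P) = trans P f`
at the origin), in particular of the local Bernstein-Sato polynomial `b_{f,P}`; and such that for
every field `K ⊃ k` the local motivic zeta function
`zetaN f P = 𝕃 ^ (-n) ∑_{l ≥ 1} [𝒳_l] (𝕃 ^ (-n) T) ^ l` (`𝒳_l` the `l`-jets with origin `P` on which `f` has
order `l`) is in the ring `ratRing K S` generated over `K₀(Var_K)[𝕃⁻¹]` by `T` and the
`1 / (1 - 𝕃 ^ a T ^ b)`, `(a, b) ∈ S`. -/
def StrongAt {k : Type} [Field k] [Algebra k ℂ] {n : ℕ} (f : MvPolynomial (Fin n) k)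
    (P : Fin n → k) : Prop :=
  ∃ S : Finset (ℤ × ℤ),
    (∀ p ∈ S, 0 < p.2 ∧ ∀ b : Polynomial ℂ,
      Pool.Agent.H628R4.TP.IsLocalBFunction (map (algebraMap k ℂ) (trans P f)) b →
        b.eval ((p.1 : ℂ) / p.2) = 0) ∧
    ∀ (K : Type) [Field K] [Algebra k K],
      zetaN (map (algebraMap k K) f) (fun i => algebraMap k K (P i)) ∈ ratRing K S

/-- The refined property of `f` at the point `P`: there is a finite set `S` of pairs `(a, b)` of integers
with `b > 0` and `a / b` a root of `b_{f,P}(s) / (s + 1)` (`RedRootL`: a root of every `c` for which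
`(s + 1) c(s)` satisfies a local functional equation for `f` at `P`), such that for every field `K ⊃ k`
the series `(1 - 𝕃⁻¹ T) zetaN f P` (`fac K = 1 - 𝕃⁻¹ T`) is in `ratRing K S`. -/
def Refined {k : Type} [Field k] [Algebra k ℂ] {n : ℕ} (f : MvPolynomial (Fin n) k)
    (P : Fin n → k) : Prop :=
  ∃ S : Finset (ℤ × ℤ), (∀ p ∈ S, 0 < p.2 ∧ RedRootL f P ((p.1 : ℂ) / p.2)) ∧
    ∀ (K : Type) [Field K] [Algebra k K],
      fac K * zetaN (map (algebraMap k K) f) (fun i => algebraMap k K (P i)) ∈ ratRing K S

/-- **The motivic monodromy conjecture at the origin: transfer and reduction to cubics.** Let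
`k ⊂ ℂ` be a field, for instance `k = ℂ`. (For the origin take `P = 0`; and the property of `f` at `P`
is the property of `f(x + P)` at the origin.)

* Part 1. If `f ≠ 0` has the refined property at a zero `P ∈ k ^ n`, then `StrongAt f P`.
* Part 2 (transfer). Let `F₁` be `f(x) + ∑_{i ≤ κ} y_i z_i` (`stab f κ`) and `F₂` be
  `f(x) + ∑_{i ≤ κ + 1} y_i z_i` after automorphisms of the polynomial rings. If `F₁` and `F₂` have the
  refined property at all their zeros with coordinates in `k`, then `f ≠ 0` has it at all its zeros in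
  `k ^ n`.
* Part 3. The refined property of all polynomials `f ≠ 0` at all their zeros in `k ^ n` is equivalent
  to the refined property of the cubics `cubic q = x_0 + ∑_j t_j q_j(x)`, `x = (x_0, …, x_n)`,
  `deg q_j ≤ 2`, at their zeros with coordinates in `k`. -/
theorem result (k : Type) [Field k] [Algebra k ℂ] :
    (∀ (n : ℕ) (f : MvPolynomial (Fin n) k) (P : Fin n → k), f ≠ 0 → eval P f = 0 →
      Refined f P → StrongAt f P) ∧
    (∀ (n κ : ℕ) (f : MvPolynomial (Fin n) k), f ≠ 0 →
      ∀ (Φ₁ : MvPolynomial (Fin (n + (κ + κ))) k ≃ₐ[k] MvPolynomial (Fin (n + (κ + κ))) k)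
        (Φ₂ : MvPolynomial (Fin (n + (κ + 1 + (κ + 1)))) k ≃ₐ[k]
          MvPolynomial (Fin (n + (κ + 1 + (κ + 1)))) k),
      (∀ P, eval P (Φ₁ (stab f κ)) = 0 → Refined (Φ₁ (stab f κ)) P) →
      (∀ P, eval P (Φ₂ (stab f (κ + 1))) = 0 → Refined (Φ₂ (stab f (κ + 1))) P) →
      ∀ P, eval P f = 0 → Refined f P) ∧
    ((∀ (n : ℕ) (f : MvPolynomial (Fin n) k) (P : Fin n → k), f ≠ 0 → eval P f = 0 →
      Refined f P) ↔
      ∀ (n l : ℕ) (q : Fin l → MvPolynomial (Fin (n + 1)) k), (∀ j, (q j).totalDegree ≤ 2) →
        ∀ P : Fin (n + 1 + l) → k, eval P (cubic q) = 0 → Refined (cubic q) P) := by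
  classical
  let 𝒦 : ∀ (K : Type) [Field K] [Algebra k K], Set (AlgebraicClosure K) → Prop :=
    fun K _ _ E => E = {a | a ≠ 0}
  have h𝒦 : ∀ (K : Type) [Field K] [Algebra k K] (E : Set (AlgebraicClosure K)), 𝒦 K E →
      Pool.Agent.W375.MG.Good E := by
    intro K _ _ E hE
    rw [show E = {a | a ≠ 0} from hE]
    exact Pool.Agent.W375.MG.good_units
  have key : ∀ (n : ℕ) (f : MvPolynomial (Fin n) k) (P : Fin n → k),
      Refined f P ↔ Pool.Agent.X271.LR.RefAt 𝒦 f P := by
    intro n f P
    refine exists_congr fun S => and_congr Iff.rfl ?_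
    constructor
    · intro h K _ _ E hE
      rw [show E = {a | a ≠ 0} from hE]
      exact (Pool.Agent.X271.LR.zetaN_iff K f P S).1 (h K)
    · intro h K _ _
      exact (Pool.Agent.X271.LR.zetaN_iff K f P S).2 (h K _ rfl)
  refine ⟨fun n f P hf hP h => ?_, fun n κ f hf Φ₁ Φ₂ h1 h2 P hP => ?_, ?_⟩
  · obtain ⟨S, hS, hz⟩ := h
    refine ⟨insert (-1, 1) S, fun p hp => ?_, fun K _ _ => ?_⟩
    · rcases Finset.mem_insert.1 hp with rfl | hp
      · refine ⟨by norm_num, fun b hb => ?_⟩
        have h1 := (Pool.Agent.X271.LR.rootL_of_red hf hP hb).1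
        have h6 : (((-1 : ℤ) : ℂ) / ((1 : ℤ) : ℂ)) = -1 := by norm_num
        simp only [h6]
        exact h1
      · exact ⟨(hS p hp).1, fun b hb =>
          (Pool.Agent.X271.LR.rootL_of_red hf hP hb).2 _ (hS p hp).2⟩
    · have h1 := Pool.Agent.W63.MTFin.geo_mul (K := K) (-1) 1 one_pos
      rw [show (1 : ℤ).toNat = 1 from rfl, zpow_neg_one, pow_one] at h1
      have h2 : Pool.Agent.W428.MOT.geo K (-1) 1 *
          (fac K * zetaN (map (algebraMap k K) f) (fun i => algebraMap k K (P i))) =
          zetaN (map (algebraMap k K) f) (fun i => algebraMap k K (P i)) := by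
        unfold fac
        rw [← mul_assoc, mul_comm (Pool.Agent.W428.MOT.geo K (-1) 1), h1, one_mul]
      rw [← h2]
      refine (ratRing K _).mul_mem (Pool.Agent.W63.MTFin.geo_mem (p := ((-1 : ℤ), (1 : ℤ)))
        (Finset.mem_coe.2 (Finset.mem_insert_self _ _))) ?_
      exact Pool.Agent.W375.MG.ratRing_mono (Finset.coe_subset.2 (Finset.subset_insert _ _)) (hz K)
  · rw [key]
    exact Pool.Agent.X271.LR.refZ_transfer h𝒦 f hf κ Φ₁ Φ₂
      (fun Q hQ => (key _ _ _).1 (h1 Q hQ)) (fun Q hQ => (key _ _ _).1 (h2 Q hQ)) P hP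
  · simp only [key]
    exact Pool.Agent.X271.LR.refZ_cubic h𝒦

end Pool.Agent.Results.MP_9321be_ag.ReductionToCubicsLocal
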