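import Mathlib
import Pool.Agent.X271.GermThm

/-!
# The strong motivic monodromy conjecture at the origin for stably sparse germs

Let `k ⊂ ℂ` be a field and let `f ∈ k[x_1, …, x_n]`, `f ≠ 0`, `f(0) = 0`, be such that for some `κ ≥ 0`
the function `f(x) + y_1 z_1 + ⋯ + y_κ z_κ` is, in suitable FORMAL coordinates `X` at the origin of the
space with coordinates `x, y, z`, of the form `∑_j U_j(X) X ^ (v_j)` with affinely independent exponents
`v_j` and formal power series `U_j`, `U_j(0) ≠ 0`. We prove the motivic monodromy conjecture at the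
origin for `f`, in its strong form: the local motivic zeta function `Z_{mot,0,f}(T)` of the problem lies
in the ring generated by `T` and finitely many `1 / (1 - 𝕃 ^ a T ^ b)` with `a / b` a root of the local
Bernstein-Sato polynomial `b_{f,0}` at the origin; by the theorem of Malgrange and Kashiwara
`exp(2 π i a / b)` is an eigenvalue of the monodromy of `f` at points of `{f = 0}` arbitrarily near to `0`.

Cases: `f = ∑_j U_j(x) x ^ (v_j)` (`κ = 0`); and the restrictions `f` of `Φ = ∑_{π j = 0} U_j X ^ (m_j)` to
the smooth germs `{l_1 = ⋯ = l_κ = 0}`, `l_i = ∑_{π j = i} U_j X ^ (m_j)`, with coordinates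
`x_1, …, x_n`, in the space with coordinates `x, z` (`f ≡ Φ` modulo `(l_1, …, l_κ)`), if the exponents of
`Φ + ∑ y_i l_i` are affinely independent. For instance
`f = u_0(x) x ^ w ∏_{i ≤ κ} (a_i(x) x ^ (α_i) - b_i(x) x ^ (β_i)) ^ (e_i)` with linearly independent
`α_i - β_i`, `α_i, β_i ≠ 0`, `w ≠ 0` or some `e_i ≥ 2`, and arbitrary polynomials `u_0, a_i, b_i` which do
not vanish at the origin (`l_i = z_i - a_i x ^ (α_i) + b_i x ^ (β_i)`, `Φ = u_0 x ^ w ∏ z_i ^ (e_i)`). Such germs
are in general degenerate with respect to their Newton polyhedra in all coordinates, not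
quasihomogeneous, not reduced, and their singularities are not isolated. The theorems of this
problem for polynomials with affinely independent exponents, for nondegenerate polynomials and for
generic coefficients do not apply to them.

Method. (a) The classes of the jets with origin `0` are invariant under formal changes of coordinates
and multiplication by units: the truncations of a formal coordinate change and of its inverse (formal
inverse function theorem) give polynomial bijections of the jet spaces. (b) The jets of `f + y z` with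
origin `0` are counted in the Grothendieck ring; `Z_f` is an explicit combination of the local zeta
functions of `f + ∑_{i ≤ κ} y_i z_i` and `f + ∑_{i ≤ κ + 1} y_i z_i`, if the factor `1 - 𝕃⁻¹ T` is separated.
(c) Units as coefficients are removed: `∏_i w_i ^ (v_{ji}) u = U_j / U_j(0)` is solved with rational powers
of power series, because the exponents are affinely independent. (d) The theorem for affinely
independent exponents at the origin is refined: the denominator of `(1 - 𝕃⁻¹ T) Z_G(T)` contains only
the factors `1 - 𝕃 ^ (- |a|) T ^ (N_a)` such that `-|a| / N_a` is a root of `b_{G,0}(s) / (s + 1)`. (e) Local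
functional equations are transported through formal coordinates, units and `f ↦ f + ∑ y_i z_i`.
-/

set_option autoImplicit false

namespace Pool.Agent.Results.MP_9321be_ag.StablySparseLocal

open MvPolynomial Pool.Agent.W428.MOT Pool.Agent.X271.RD Pool.Agent.X271.GE
open Pool.Agent.X271.MD (exps)
open Pool.Agent.W749.NM (zetaN)
open Pool.Agent.W375.MG (zetaG Good)

/-- The exponent vectors `v j` are affinely independent (over `ℚ`). -/
def AffInd {r m : ℕ} (v : Fin r → Fin m → ℕ) : Prop :=
  AffineIndependent ℚ (fun j : Fin r => (fun i => (v j i : ℚ) : Fin m → ℚ))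

/-- The strong form of the motivic monodromy conjecture for `f` at the origin: there is a finite set
`S` of pairs `(a, b)` of integers such that `b > 0` and `a / b` is a root of every polynomial `b` with
`b(s) f ^ s = P(s) f ^ (s + 1)` for a differential operator `P(s)` with formal power series at the
origin as coefficients, polynomial in `s` (`IsLocalBFunction`), in particular of the local
Bernstein-Sato polynomial `b_{f,0}`; and for every field `K ⊃ k` the local motivic zeta function
`zetaN f 0 = 𝕃 ^ (-n) ∑_{l ≥ 1} [𝒳_l] (𝕃 ^ (-n) T) ^ l` of the problem (`𝒳_l` the `l`-jets with origin `0`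
on which `f` has order `l`) is in the ring `ratRing K S` generated over `K₀(Var_K)[𝕃⁻¹]` by `T` and the
`1 / (1 - 𝕃 ^ a T ^ b)`, `(a, b) ∈ S`. The same holds for the zeta functions `zetaG f {0} E` of the
jets with origin `0` for which the leading coefficient of `f` is in a constructible set `E` of nonzero
numbers. -/
def StrongMC {k : Type} [Field k] [Algebra k ℂ] {n : ℕ} (f : MvPolynomial (Fin n) k) : Prop :=
  ∃ S : Finset (ℤ × ℤ),
    (∀ p ∈ S, 0 < p.2 ∧ ∀ b : Polynomial ℂ,
      Pool.Agent.H628R4.TP.IsLocalBFunction (map (algebraMap k ℂ) f) b →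
        b.eval ((p.1 : ℂ) / p.2) = 0) ∧
    ∀ (K : Type) [Field K] [Algebra k K],
      zetaN (map (algebraMap k K) f) 0 ∈ ratRing K S ∧
      ∀ E : Set (AlgebraicClosure K), Good E →
        zetaG (map (algebraMap k K) f) {0} E ∈ ratRing K S

/-- The refined property of `f` at the origin: there is a finite set `S` of pairs `(a, b)` of integers
with `b > 0` and `a / b` a root of `b_{f,0}(s) / (s + 1)`, that is of every `c` for which `(s + 1) c(s)`
satisfies a local functional equation for `f`, such that `(1 - 𝕃⁻¹ T) zetaG f {0} E`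
(`fac K = 1 - 𝕃⁻¹ T`) is in `ratRing K S` for all fields `K ⊃ k` and all constructible sets `E` of
nonzero numbers (the nonzero numbers: naive zeta function). -/
def Refined {k : Type} [Field k] [Algebra k ℂ] {n : ℕ} (f : MvPolynomial (Fin n) k) : Prop :=
  ∃ S : Finset (ℤ × ℤ),
    (∀ p ∈ S, 0 < p.2 ∧ ∀ c : Polynomial ℂ,
      Pool.Agent.H628R4.TP.IsLocalBFunction (map (algebraMap k ℂ) f) ((Polynomial.X + 1) * c) →
        c.eval ((p.1 : ℂ) / p.2) = 0) ∧
    ∀ (K : Type) [Field K] [Algebra k K] (E : Set (AlgebraicClosure K)), Good E →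
      fac K * zetaG (map (algebraMap k K) f) {0} E ∈ ratRing K S

/-- **The strong motivic monodromy conjecture at the origin for stably sparse germs.** Let `k ⊂ ℂ` be a
field, for instance `k = ℂ`. `stab f κ = f(x) + ∑_{i ≤ κ} y_i z_i`. `FCoord φ`: the formal power series
`φ_i` over `k` have no constant terms and the determinant of their linear parts is not zero.
`EqvP F G`: `F ∘ φ = u G` for formal coordinates `φ` (`FCoord φ`) and a unit `u`.

* Part 1. If `f ≠ 0`, `f(0) = 0`, has the refined property at the origin then `StrongMC f`.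
* Part 2 (transfer). Let `f ≠ 0`, `f(0) = 0`, let `f + ∑_{i ≤ κ} y_i z_i` be equal to the polynomial `G` in
  formal coordinates at the origin up to a unit, and let `G` and `G + y z` have the refined property.
  Then `f` has the refined property.
* Part 3 (stably sparse germs). Let `f ≠ 0`, `f(0) = 0`, and let `f + ∑_{i ≤ κ} y_i z_i` be equal to
  `∑_j U_j X ^ (v j)` in formal coordinates at the origin up to a unit, with affinely independent
  `v j` and formal power series `U_j` over `k`, `U_j(0) ≠ 0`. Then `f` has the refined property, and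
  `StrongMC f`.
* Part 4 (restrictions to smooth germs). Let exponents `m_j` of monomials in
  `x_1, …, x_n, z_1, …, z_κ` be given, `j = 1, …, r`, in groups `π j ∈ {0, …, κ}`, and formal power
  series `U_j` in `x, z`, `U_j(0) ≠ 0`; `Φ = ∑_{π j = 0} U_j X ^ (m_j)`, `l_i = ∑_{π j = i} U_j X ^ (m_j)`.
  Let the exponents `exps π m` (`m_j` for `π j = 0`, `y_i m_j` for `π j = i`) of `Φ + ∑ y_i l_i` be affinely
  independent, `l_i(0) = 0`, `det (∂ l_i / ∂ z_j)(0) ≠ 0`, `∂ Φ / ∂ z_j (0) = 0`. If `f ≠ 0`, `f(0) = 0`, is
  congruent to `Φ` modulo the ideal `(l_1, …, l_κ)` of the ring of formal power series in `x, z`, then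
  `f` has the refined property, and `StrongMC f`. -/
theorem result (k : Type) [Field k] [Algebra k ℂ] {n κ : ℕ} (f : MvPolynomial (Fin n) k)
    (hf : f ≠ 0) (hf0 : constantCoeff f = 0) :
    (Refined f → StrongMC f) ∧
    (∀ G : MvPolynomial (Fin (n + (κ + κ))) k,
      EqvP ((stab f κ : MvPolynomial (Fin (n + (κ + κ))) k) :
        MvPowerSeries (Fin (n + (κ + κ))) k) (G : MvPowerSeries (Fin (n + (κ + κ))) k) →
      Refined G → Refined (rename (Fin.castAdd 2) G + X (Fin.natAdd _ 0) * X (Fin.natAdd _ 1)) →
      Refined f) ∧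
    (∀ (r : ℕ) (v : Fin r → Fin (n + (κ + κ)) → ℕ), AffInd v →
      ∀ U : Fin r → MvPowerSeries (Fin (n + (κ + κ))) k,
      (∀ j, MvPowerSeries.constantCoeff (U j) ≠ 0) →
      EqvP ((stab f κ : MvPolynomial (Fin (n + (κ + κ))) k) :
        MvPowerSeries (Fin (n + (κ + κ))) k) (∑ j, U j * ∏ i, MvPowerSeries.X i ^ v j i) →
      Refined f ∧ StrongMC f) ∧
    (∀ (r : ℕ) (π : Fin r → Fin (κ + 1)) (m : Fin r → Fin (n + κ) → ℕ), AffInd (exps π m) →
      ∀ U : Fin r → MvPowerSeries (Fin (n + κ)) k,
      (∀ j, MvPowerSeries.constantCoeff (U j) ≠ 0) →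
      ∀ (Φ : MvPowerSeries (Fin (n + κ)) k) (l : Fin κ → MvPowerSeries (Fin (n + κ)) k),
      (Φ = ∑ j, if π j = 0 then U j * ∏ i, MvPowerSeries.X i ^ m j i else 0) →
      (∀ i : Fin κ, l i =
        ∑ j, if π j = i.succ then U j * ∏ i, MvPowerSeries.X i ^ m j i else 0) →
      (∀ i, MvPowerSeries.constantCoeff (l i) = 0) →
      (Matrix.of fun i j : Fin κ =>
        MvPowerSeries.coeff (Finsupp.single (Fin.natAdd n j) 1) (l i)).det ≠ 0 →
      (∀ j : Fin κ, MvPowerSeries.coeff (Finsupp.single (Fin.natAdd n j) 1) Φ = 0) →
      Φ - MvPowerSeries.rename (Fin.castAdd κ) (f : MvPowerSeries (Fin n) k) ∈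
        Ideal.span (Set.range l) →
      Refined f ∧ StrongMC f) := by
  have key : ∀ {N : ℕ} (g : MvPolynomial (Fin N) k), Refined g ↔ Ref0 g := by
    intro N g
    refine exists_congr fun S => and_congr ?_ ?_
    · refine forall_congr' fun p => forall_congr' fun _ => and_congr Iff.rfl ?_
      unfold RedRootL
      rw [trans_o0]
    · constructor
      · intro h K _ _ E hE
        rw [pt_o0]
        exact h K E hE
      · intro h K _ _ E hE
        have h1 := h K E hE
        rwa [pt_o0] at h1
  have strong : Ref0 f → StrongMC f := fun h => strong_of_ref0 hf hf0 h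
  have hP : eval (o0 k n) f = 0 := by
    rw [← hf0, ← Pool.Agent.X271.LR.const_trans (o0 k n) f, trans_o0]
  refine ⟨fun h => strong ((key f).1 h), fun G hG h1 h2 => (key f).2
    (ref0_stable hf hP κ hG ((key G).1 h1) ((key _).1 h2)), fun r v hv U hU h => ?_,
    fun r π m hv U hU Φ l hΦ hl hl0 hdet hlin hI => ?_⟩
  · have h1 : Ref0 f := sparse_germ v hv U hU hf hf0 h
    exact ⟨(key f).2 h1, strong h1⟩
  · have h1 : Ref0 f := emb_germ π m hv U hU Φ l hΦ hl hl0 hdet hlin hf hf0 hI
    exact ⟨(key f).2 h1, strong h1⟩

end Pool.Agent.Results.MP_9321be_ag.StablySparseLocal
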